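import Mathlib
import Pool.Agent.H47.CP.Defs
import Pool.Agent.H47.CP.Core2

/-! # Averaging a real cocycle over translations (MP_7acde3_gt, module `AvgStmt`) -/

set_option autoImplicit false

namespace Pool.H48.CP

open Pool.H47.CP

theorem torus_of_inT (F : List ℕ) (hne : F ≠ []) (h : inT F = true) : fs F ∈ torus := by
  unfold inT at h
  rw [List.any_eq_true] at h
  obtain ⟨x, -, h⟩ := h
  rw [List.any_eq_true] at h
  obtain ⟨l, hl, h⟩ := h
  unfold tfacs at hl
  rw [List.mem_map] at hl
  obtain ⟨b, hb, rfl⟩ := hl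
  refine torus_mk x b (List.mem_permutations'.1 hb) F hne fun v hv => ?_
  rw [List.all_eq_true] at h
  have h1 := h v hv
  rw [List.any_eq_true] at h1
  obtain ⟨u, hu, h2⟩ := h1
  exact ⟨u, hu, by simpa using h2⟩

theorem shift_all {KT : Set (Finset (ZMod 31))} (h1 : ∀ F ∈ KT, F.image (· + 1) ∈ KT)
    (t : ZMod 31) : ∀ F ∈ KT, F.image (· + t) ∈ KT := by
  have key : ∀ n : ℕ, ∀ F ∈ KT, F.image (· + (n : ZMod 31)) ∈ KT := by
    intro n
    induction n with
    | zero => intro F hF; simpa using hF
    | succ n ih =>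
      intro F hF
      have h2 := h1 _ (ih F hF)
      rw [Finset.image_image] at h2
      convert h2 using 2
      funext x
      simp [Function.comp, add_assoc]
  intro F hF
  have h2 := key t.val F hF
  rwa [ZMod.natCast_zmod_val] at h2

theorem coc_shift {KT : Set (Finset (ZMod 31))} (h1 : ∀ F ∈ KT, F.image (· + 1) ∈ KT)
    {c : ZMod 31 → ZMod 31 → ℝ}
    (hc : ∀ F ∈ KT, ∀ x ∈ F, ∀ y ∈ F, ∀ z ∈ F, c x y + c y z = c x z)
    {F : Finset (ZMod 31)} (hF : F ∈ KT) {x y z : ZMod 31} (hx : x ∈ F) (hy : y ∈ F) (hz : z ∈ F)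
    (t : ZMod 31) : c (t + x) (t + y) + c (t + y) (t + z) = c (t + x) (t + z) := by
  have h2 := shift_all h1 t F hF
  have m : ∀ u ∈ F, t + u ∈ F.image (· + t) := fun u hu =>
    Finset.mem_image.2 ⟨u, hu, add_comm u t⟩
  exact hc _ h2 _ (m x hx) _ (m y hy) _ (m z hz)

/-- [helper48] -/
theorem avg : AvgStmt := by
  intro KT hT h1 c hc a ha
  -- the average over translations
  have hsum : ∀ x y : ZMod 31, a (y - x) = ∑ t : ZMod 31, c (t + x) (t + y) := by
    intro x y
    rw [ha]
    rw [← Equiv.sum_comp (Equiv.addRight x)]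
    refine Finset.sum_congr rfl fun t _ => ?_
    simp only [Equiv.coe_addRight]
    congr 1
    ring
  have h3 : ∀ F ∈ KT, ∀ x ∈ F, ∀ y ∈ F, ∀ z ∈ F, a (y - x) + a (z - y) = a (z - x) := by
    intro F hF x hx y hy z hz
    rw [hsum x y, hsum y z, hsum x z, ← Finset.sum_add_distrib]
    exact Finset.sum_congr rfl fun t _ => coc_shift h1 hc hF hx hy hz t
  have key : ∀ r s t : ℕ, t = r + s → inT [0, r, t] = true →
      a (r : ZMod 31) + a (s : ZMod 31) = a (t : ZMod 31) := by
    intro r s t ht hi
    have hF := hT (torus_of_inT [0, r, t] (by simp) hi)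
    have h4 := h3 _ hF 0 (mem_fs.2 ⟨0, by simp, by simp⟩) r (mem_fs.2 ⟨r, by simp, rfl⟩) t
      (mem_fs.2 ⟨t, by simp, rfl⟩)
    subst ht
    simpa using h4
  have a0 : a 0 = 0 := by
    have h5 := key 0 0 0 rfl (by decide +kernel)
    simp at h5
    exact h5
  have e3 := key 1 2 3 rfl (by decide +kernel)
  have e5 := key 1 4 5 rfl (by decide +kernel)
  have e6 := key 2 4 6 rfl (by decide +kernel)
  have e7 := key 3 4 7 rfl (by decide +kernel)
  have e9 := key 1 8 9 rfl (by decide +kernel)
  have e10 := key 2 8 10 rfl (by decide +kernel)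
  have e11 := key 3 8 11 rfl (by decide +kernel)
  have e12 := key 4 8 12 rfl (by decide +kernel)
  have e13 := key 5 8 13 rfl (by decide +kernel)
  have e14 := key 6 8 14 rfl (by decide +kernel)
  have e15 := key 7 8 15 rfl (by decide +kernel)
  have e17 := key 1 16 17 rfl (by decide +kernel)
  have e18 := key 2 16 18 rfl (by decide +kernel)
  have e19 := key 3 16 19 rfl (by decide +kernel)
  have e20 := key 4 16 20 rfl (by decide +kernel)
  have e21 := key 5 16 21 rfl (by decide +kernel)
  have e22 := key 6 16 22 rfl (by decide +kernel)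
  have e23 := key 7 16 23 rfl (by decide +kernel)
  have e24 := key 8 16 24 rfl (by decide +kernel)
  have e25 := key 9 16 25 rfl (by decide +kernel)
  have e26 := key 10 16 26 rfl (by decide +kernel)
  have e27 := key 11 16 27 rfl (by decide +kernel)
  have e28 := key 12 16 28 rfl (by decide +kernel)
  have e29 := key 13 16 29 rfl (by decide +kernel)
  have e30 := key 14 16 30 rfl (by decide +kernel)
  simp only [Nat.cast_one, Nat.cast_ofNat] at e3 e5 e6 e7 e9 e10 e11 e12 e13 e14 e15 e17 e18
  simp only [Nat.cast_one, Nat.cast_ofNat] at e19 e20 e21 e22 e23 e24 e25 e26 e27 e28 e29 e30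
  have e31 : a 15 + a 16 = 0 := by
    have hF := hT (torus_of_inT [0, 15] (by simp) (by decide +kernel))
    have h4 := h3 _ hF 0 (mem_fs.2 ⟨0, by simp, by simp⟩) 15 (mem_fs.2 ⟨15, by simp, by simp⟩) 0
      (mem_fs.2 ⟨0, by simp, by simp⟩)
    have h16 : (0 - 15 : ZMod 31) = 16 := by decide
    rw [h16, sub_zero, sub_self, a0] at h4
    exact h4
  have hvl : ∀ r : ZMod 31, a r = vlR [a 1, a 2, a 4, a 8, a 16] r.val := by
    intro r
    have hr : (r.val : ZMod 31) = r := ZMod.natCast_zmod_val r
    have hlt : r.val < 31 := ZMod.val_lt r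
    conv_lhs => rw [← hr]
    generalize r.val = n at hlt
    interval_cases n <;>
      simp only [vlR, Nat.cast_zero, Nat.cast_one, Nat.cast_ofNat, a0] <;> norm_num <;> linarith
  refine ⟨?_, hvl, h3, ?_⟩
  · linarith
  · intro z1 z2 z4 z8 z16
    have az : ∀ r, a r = 0 := by
      intro r
      rw [hvl r, z1, z2, z4, z8, z16]
      simp [vlR]
    -- membership of small triangles
    have tri : ∀ r s t : ℕ, inT [r, s, t] = true → ∀ u : ZMod 31,
        c (u + (r : ZMod 31)) (u + (s : ZMod 31)) + c (u + (s : ZMod 31)) (u + (t : ZMod 31)) =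
          c (u + (r : ZMod 31)) (u + (t : ZMod 31)) := by
      intro r s t hi u
      exact coc_shift h1 hc (hT (torus_of_inT [r, s, t] (by simp) hi))
        (mem_fs.2 ⟨r, by simp, rfl⟩) (mem_fs.2 ⟨s, by simp, rfl⟩) (mem_fs.2 ⟨t, by simp, rfl⟩) u
    -- the potential
    set f : ZMod 31 → ℝ := fun x => ∑ t ∈ Finset.range x.val, c (t : ZMod 31) ((t : ZMod 31) + 1)
      with hf
    have hsum1 : ∑ t ∈ Finset.range 31, c (t : ZMod 31) ((t : ZMod 31) + 1) = 0 := by
      have e := (ha 1).symm.trans z1
      rw [← e]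
      exact Finset.sum_range (fun t : ℕ => c (t : ZMod 31) ((t : ZMod 31) + 1)) |>.trans
        (Finset.sum_congr rfl fun i _ => by
          have : ((i : ℕ) : ZMod 31) = i := ZMod.natCast_zmod_val (n := 31) i
          rw [this])
    have hf1 : ∀ x : ZMod 31, f (x + 1) - f x = c x (x + 1) := by
      intro x
      have hx : (x.val : ZMod 31) = x := ZMod.natCast_zmod_val x
      have hlt : x.val < 31 := ZMod.val_lt x
      by_cases h30 : x.val = 30
      · have hx' : x = 30 := by rw [← hx, h30]; rfl
        subst hx'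
        have e1 : ((30 : ZMod 31) + 1) = 0 := by decide
        have v0 : (0 : ZMod 31).val = 0 := by decide
        have v30 : (30 : ZMod 31).val = 30 := by decide
        rw [Finset.sum_range_succ] at hsum1
        simp only [hf, e1, v0, v30, Finset.range_zero, Finset.sum_empty, Nat.cast_ofNat] at hsum1 ⊢
        linarith
      · have hv : (x + 1).val = x.val + 1 := by
          rw [ZMod.val_add_of_lt]
          · congr 1
          · have : (1 : ZMod 31).val = 1 := by decide
            rw [this]; omega
        simp only [hf]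
        rw [hv, Finset.sum_range_succ, hx]
        ring
    -- differences along even steps are translation invariant
    have ev : ∀ s : ℕ, s < 31 → s % 2 = 0 → ∀ x : ZMod 31,
        c x (x + (s : ZMod 31)) = f (x + (s : ZMod 31)) - f x := by
      intro s hs h2
      have t1 : inT [0, 1, (1 + s) % 31] = true ∧ inT [0, s, (s + 1) % 31] = true := by
        have : ∀ s ∈ List.range 31, s % 2 = 0 →
          (inT [0, 1, (1 + s) % 31] = true ∧ inT [0, s, (s + 1) % 31] = true) := by decide +kernel
        exact this s (List.mem_range.2 hs) h2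
      have st : ∀ x : ZMod 31, (c (x + 1) (x + 1 + (s : ZMod 31)) - f (x + 1 + (s : ZMod 31)) + f (x + 1)) =
          (c x (x + (s : ZMod 31)) - f (x + (s : ZMod 31)) + f x) := by
        intro x
        have q1 := tri 0 1 ((1 + s) % 31) t1.1 x
        have q2 := tri 0 s ((s + 1) % 31) t1.2 x
        have w1 : (((1 + s) % 31 : ℕ) : ZMod 31) = 1 + (s : ZMod 31) := by
          rw [ZMod.natCast_mod]; push_cast; ring
        have w2 : (((s + 1) % 31 : ℕ) : ZMod 31) = 1 + (s : ZMod 31) := by
          rw [ZMod.natCast_mod]; push_cast; ring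
        rw [w1] at q1
        rw [w2] at q2
        have f1 := hf1 x
        have f2 := hf1 (x + (s : ZMod 31))
        have e1 : x + (s : ZMod 31) + 1 = x + (1 + (s : ZMod 31)) := by ring
        have e2 : x + 1 + (s : ZMod 31) = x + (1 + (s : ZMod 31)) := by ring
        rw [e1] at f2
        rw [e2]
        simp only [Nat.cast_zero, Nat.cast_one, add_zero] at q1 q2
        linarith
      have st' : ∀ x : ZMod 31, (c x (x + (s : ZMod 31)) - f (x + (s : ZMod 31)) + f x) =
          (c 0 (0 + (s : ZMod 31)) - f (0 + (s : ZMod 31)) + f 0) := by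
        have : ∀ n : ℕ, (c (n : ZMod 31) (n + (s : ZMod 31)) - f (n + (s : ZMod 31)) + f n) =
          (c 0 (0 + (s : ZMod 31)) - f (0 + (s : ZMod 31)) + f 0) := by
          intro n
          induction n with
          | zero => simp
          | succ n ih => rw [← ih]; push_cast; exact st n
        intro x
        have := this x.val
        rwa [ZMod.natCast_zmod_val] at this
      have tot : ∑ x : ZMod 31, (c x (x + (s : ZMod 31)) - f (x + (s : ZMod 31)) + f x) = 0 := by
        rw [Finset.sum_add_distrib, Finset.sum_sub_distrib, ← ha, az]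
        have : ∑ x : ZMod 31, f (x + (s : ZMod 31)) = ∑ x, f x :=
          Equiv.sum_comp (Equiv.addRight (s : ZMod 31)) f
        rw [this]; ring
      rw [Finset.sum_congr rfl fun x _ => st' x, Finset.sum_const, Finset.card_univ, ZMod.card,
        nsmul_eq_mul] at tot
      have z : (c 0 (0 + (s : ZMod 31)) - f (0 + (s : ZMod 31)) + f 0) = 0 := by
        have : ((31 : ℕ) : ℝ) ≠ 0 := by norm_num
        exact (mul_eq_zero.1 tot).resolve_left this
      intro x
      have := st' x
      rw [z] at this
      linarith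
    have all : ∀ s : ℕ, s < 31 → ∀ x : ZMod 31,
        c x (x + (s : ZMod 31)) = f (x + (s : ZMod 31)) - f x := by
      intro s hs x
      by_cases h2 : s % 2 = 0
      · exact ev s hs h2 x
      · have t1 : inT [0, 1, s] = true := by
          have : ∀ s ∈ List.range 31, ¬ s % 2 = 0 → inT [0, 1, s] = true := by decide +kernel
          exact this s (List.mem_range.2 hs) h2
        have q1 := tri 0 1 s t1 x
        have w := ev (s - 1) (by omega) (by omega) (x + 1)
        have e1 : x + 1 + ((s - 1 : ℕ) : ZMod 31) = x + (s : ZMod 31) := by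
          rw [Nat.cast_sub (by omega)]; push_cast; ring
        rw [e1] at w
        have f1 := hf1 x
        simp only [Nat.cast_zero, Nat.cast_one, add_zero] at q1
        linarith
    refine ⟨f, fun x y => ?_⟩
    have := all (y - x).val (ZMod.val_lt _) x
    rw [ZMod.natCast_zmod_val] at this
    rwa [add_sub_cancel] at this

end Pool.H48.CP
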